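import Pool.Agent.H79.MC.Targets2

/-!
# Robust graphs have few near-optimal cuts
-/

set_option autoImplicit false

namespace Pool.Agent.H19.MC

open Pool.Agent.H79.MC

open Classical in
lemma rob_card {n : ℕ} (P : Set (Fin n) → Prop) :
    {X : Set (Fin n) | P X}.ncard =
      (Finset.univ.filter fun x : Fin n → Bool => P {v | x v = true}).card := by
  have hinj : Function.Injective fun (x : Fin n → Bool) => {v : Fin n | x v = true} := by
    intro x y h
    funext v
    have h1 : (v ∈ {v : Fin n | x v = true}) = (v ∈ {v : Fin n | y v = true}) := by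
      simp only at h
      rw [h]
    simp only [Set.mem_ofPred_eq, eq_iff_iff] at h1
    cases hx : x v <;> cases hy : y v <;> simp_all
  rw [← Set.ncard_coe_finset, ← Set.ncard_image_of_injective _ hinj]
  congr 1
  ext X
  simp only [Set.mem_ofPred_eq, Set.mem_image, Finset.coe_filter, Finset.mem_univ, true_and]
  constructor
  · intro hX
    refine ⟨fun v => decide (v ∈ X), ?_, ?_⟩
    · simpa using hX
    · simp
  · rintro ⟨x, hx, rfl⟩
    exact hx

lemma rob_const {κ : ℝ} (hκ : 0 < κ) : ∃ c : ℝ, 0 < c ∧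
    2 * Real.sqrt (2 * Real.log 2 * c) + 2 * Real.log 2 * c ≤ κ / 4 := by
  have hl := Real.log_two_lt_d9
  have hl0 : 0 < Real.log 2 := Real.log_pos (by norm_num)
  refine ⟨min 1 ((κ / 16) ^ 2), lt_min one_pos (by positivity), ?_⟩
  set c : ℝ := min 1 ((κ / 16) ^ 2) with hc
  have hc1 : c ≤ 1 := min_le_left _ _
  have hc2 : c ≤ (κ / 16) ^ 2 := min_le_right _ _
  have hc0 : 0 ≤ c := le_min zero_le_one (by positivity)
  have h1 : Real.sqrt c ≤ κ / 16 := Real.sqrt_le_iff.2 ⟨by positivity, hc2⟩
  have h2 : c ≤ κ / 16 := by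
    have h3 : Real.sqrt c ≤ 1 := Real.sqrt_le_one.2 hc1
    have h4 := Real.mul_self_sqrt hc0
    have h5 := Real.sqrt_nonneg c
    nlinarith
  have h3 : Real.sqrt (2 * Real.log 2 * c) ≤ 6 / 5 * (κ / 16) := by
    rw [Real.sqrt_le_left (by positivity)]
    have h4 : 2 * Real.log 2 * c ≤ (36 / 25) * c := by
      apply mul_le_mul_of_nonneg_right _ hc0
      linarith
    calc 2 * Real.log 2 * c ≤ (36 / 25) * c := h4
      _ ≤ 36 / 25 * (κ / 16) ^ 2 := by linarith
      _ = _ := by ring
  have h4 : 2 * Real.log 2 * c ≤ 7 / 5 * (κ / 16) := by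
    calc 2 * Real.log 2 * c ≤ 7 / 5 * c := by
          apply mul_le_mul_of_nonneg_right _ hc0
          linarith
      _ ≤ _ := by linarith
  linarith

open Classical in
theorem pf_rob (hENT : T_ENT) (hORT : T_ORT) (hMAR : T_MAR) (hMUL : T_MUL) (hSGN : T_SGN) :
    T_ROB := by
  intro κ hκ
  obtain ⟨c, hc0, hc⟩ := rob_const hκ
  refine ⟨κ / 16, c, by positivity, hc0, fun n G hE hRob => ?_⟩
  by_contra hcon
  unfold Few at hcon
  rw [not_le, rob_card] at hcon
  set F : Finset (Fin n → Bool) := Finset.univ.filter fun x : Fin n → Bool =>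
    (maxCut G : ℝ) - κ / 16 * Real.sqrt (edges G * n) ≤ cutSize G {v | x v = true} with hF
  have hn : 0 < n := by
    rcases Nat.eq_zero_or_pos n with rfl | h
    · exfalso
      have h1 : edges G = 0 := by
        unfold edges
        rw [Set.ncard_eq_zero]
        ext e
        simp only [Set.mem_empty_iff_false, iff_false]
        intro he
        induction e with
        | _ u v => exact u.elim0
      omega
    · exact h
  have hn0 : (0 : ℝ) < n := by exact_mod_cast hn
  set m : ℝ := (edges G : ℝ) with hm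
  have hm0 : 0 < m := by
    rw [hm]
    exact_mod_cast hE
  set R : ℝ := Real.sqrt (m * n) with hR
  have hR0 : 0 < R := Real.sqrt_pos.2 (by positivity)
  have hFc : (0 : ℝ) < F.card := lt_trans (by positivity) hcon
  have hFne : F.Nonempty := Finset.card_pos.1 (by exact_mod_cast hFc)
  set B : ℝ := ∑ x ∈ F, ∑ v, cmean F x v ^ 2 with hB
  have hB1 : B ≤ 2 * Real.log 2 * c * n * F.card := hENT n F c hFne hcon.le
  have hl0 : 0 < Real.log 2 := Real.log_pos (by norm_num)
  have hO := hORT n G F
  rw [← hB] at hO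
  have h1 : ∀ x ∈ F, phi G (fun v => sb (x v)) ≤ 2 * m - 4 * maxCut G + κ / 4 * R := by
    intro x hx
    have h2 := hSGN n G {v | x v = true}
    have h3 : sgv {v | x v = true} = fun v => sb (x v) := by
      funext v
      unfold sgv sb
      by_cases hb : x v = true <;> simp [hb]
    rw [h3] at h2
    have h4 := (Finset.mem_filter.1 hx).2
    rw [h2]
    linarith
  have h2 : Real.sqrt (m * F.card) * Real.sqrt B ≤ F.card * (Real.sqrt (2 * Real.log 2 * c) * R) := by
    calc Real.sqrt (m * F.card) * Real.sqrt B ≤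
        Real.sqrt (m * F.card) * Real.sqrt (2 * Real.log 2 * c * n * F.card) := by gcongr
      _ = Real.sqrt (2 * Real.log 2 * c) * R * F.card := by
          rw [← Real.sqrt_mul (by positivity), hR, ← Real.sqrt_mul (by positivity),
            show m * F.card * (2 * Real.log 2 * c * n * F.card) =
              (2 * Real.log 2 * c * (m * n)) * (F.card * F.card) by ring,
            Real.sqrt_mul (by positivity), Real.sqrt_mul_self hFc.le]
      _ = _ := by ring
  have h3 : ∑ x ∈ F, (phi G (cmean F x) + R / n * ∑ v, cmean F x v ^ 2) ≤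
      ∑ x ∈ F, (2 * m - 4 * maxCut G + κ / 2 * R) := by
    rw [Finset.sum_add_distrib, ← Finset.mul_sum, ← hB, Finset.sum_const, nsmul_eq_mul]
    have h4 : ∑ x ∈ F, phi G (fun v => sb (x v)) ≤
        F.card * (2 * m - 4 * maxCut G + κ / 4 * R) := by
      refine (Finset.sum_le_sum h1).trans ?_
      rw [Finset.sum_const, nsmul_eq_mul]
    have h5 : R / n * B ≤ F.card * (2 * Real.log 2 * c * R) := by
      calc R / n * B ≤ R / n * (2 * Real.log 2 * c * n * F.card) := by gcongr
        _ = _ := by field_simp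
    have h6 : F.card * (2 * (Real.sqrt (2 * Real.log 2 * c) * R) + 2 * Real.log 2 * c * R) ≤
        F.card * (κ / 4 * R) := by
      apply mul_le_mul_of_nonneg_left _ hFc.le
      nlinarith
    linarith
  obtain ⟨x, hx, hx1⟩ := Finset.exists_le_of_sum_le hFne h3
  have h4 : ∀ v, |cmean F x v| ≤ 1 := fun v => (hMAR n F v (fun _ => 0)).1 x hx
  have h5 := hMUL n G (cmean F x) h4
  have h6 : ∑ v, cmean F x v ^ 2 ≤ κ * n := by
    have h7 : R / n * ∑ v, cmean F x v ^ 2 ≤ κ / 2 * R := by linarith
    have h8 : ∑ v, cmean F x v ^ 2 ≤ κ / 2 * n := by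
      have h9 : R * (∑ v, cmean F x v ^ 2) ≤ R * (κ / 2 * n) := by
        rw [div_mul_eq_mul_div, div_le_iff₀ hn0] at h7
        linarith
      exact le_of_mul_le_mul_left h9 hR0
    have : 0 < κ * n := by positivity
    linarith
  have h7 := hRob (cmean F x) h4 h6
  have h8 : 0 ≤ R / n * ∑ v, cmean F x v ^ 2 :=
    mul_nonneg (by positivity) (Finset.sum_nonneg fun v _ => sq_nonneg _)
  have h9 : 0 < κ * R := by positivity
  rw [← hm] at h7
  linarith

end Pool.Agent.H19.MC
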