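import Pool.Agent.H79.MC.Targets2

/-!
# Bounded spectrum from below and large surplus
-/

set_option autoImplicit false

namespace Pool.Agent.H19.MC

open Pool.Agent.H79.MC

theorem pf_th4 (hTH2 : T_TH2) (_hMCB : T_MCB) : T_TH4 := by
  intro K hK
  have hκ : 0 < 4 / (K * (K + 1)) := by positivity
  obtain ⟨γ, C, p, hγ, h⟩ := hTH2 (4 / (K * (K + 1))) hκ
  refine ⟨γ, C, p, hγ, fun n G => ?_⟩
  obtain ⟨t, s, h1, h2, h3⟩ := h n G
  refine ⟨t, s, h1, h2, fun hG => h3 ?_⟩
  obtain ⟨hS, hM⟩ := hG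
  intro z _ hz
  set κ : ℝ := 4 / (K * (K + 1)) with hκd
  set m : ℝ := (edges G : ℝ) with hm
  have hm0 : 0 ≤ m := Nat.cast_nonneg _
  have hn0 : (0 : ℝ) ≤ n := Nat.cast_nonneg _
  have hR : Real.sqrt (m / n) * n = Real.sqrt (m * n) := by
    rcases hn0.eq_or_lt with h0 | h0
    · rw [← h0]
      simp
    · have h5 : m * n = (m / n) * (n * n) := by
        field_simp
      rw [h5, Real.sqrt_mul (by positivity), Real.sqrt_mul_self hn0]
  have h6 := hS z
  have h7 : K * Real.sqrt (m / n) * ∑ v, z v ^ 2 ≤ K * κ * Real.sqrt (m * n) := by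
    calc K * Real.sqrt (m / n) * ∑ v, z v ^ 2 ≤ K * Real.sqrt (m / n) * (κ * n) := by gcongr
      _ = K * κ * (Real.sqrt (m / n) * n) := by ring
      _ = _ := by rw [hR]
  have h8 : K * κ + κ = 4 / K := by
    rw [hκd]
    field_simp
  have h9 : K * κ * Real.sqrt (m * n) + κ * Real.sqrt (m * n) = 4 * (Real.sqrt (m * n) / K) := by
    rw [← add_mul, h8]
    ring
  linarith

end Pool.Agent.H19.MC
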